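import Pool.Agent.X31.S5
import Pool.Agent.X31.R3

/-!
# The correlations of the Möbius function with exponents `1` and `2`: all systems of linear forms with constant terms near
# the values of real powers and generalised polynomials at integers with missing digits

`f(t) = ∑ u_x t ^ x` is an arbitrary finite real combination of real powers of `t` whose largest exponent `c > 0` is not
an integer (for instance `t ^ {3/2}`, or `t ^ {1/10}`), `C` is the set of the integers with `m` digits in base `b` whose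
digit at `b ^ j` is in `𝒟 j`, where the sets `𝒟 j` of allowed digits are arbitrary with at least TWO elements (for
instance: the integers with the decimal digits `0` and `1` only; such sets can be as thin as `N ^ ε`). The values
considered are `b₀ + θ f(n)`, `n ∈ C`.
For almost all vectors of elements of ARBITRARY dense subsets of `k` such sets, ALL vectors of integers `s_i` within
`log ^ D N` of the values and ALL slopes `1 ≤ a_i ≤ log ^ T N` satisfy the conjecture of Chowla for the Möbius function,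
in the form with exponents `1` and `2`: the sums of `w(t) ∏_{i ∈ I} μ(a_i t + s_i) ∏_{i ∈ K} μ²(a_i t + s_i)` save an
arbitrary power of the logarithm, for all nonempty sets `I` and all sets `K` of indices and for arbitrary bounded weights.

The minimal real additive energy of these values is from `Pool.Agent.X31.R1` - `R3` (in this run); the
correlations for families with a sparse large spectrum are from `Pool.Agent.X107.JF` (helper107), the bound for the
exponential sums with `μ` (Davenport) is from the starting files (`Pool.Agent.H373R2.T7.sup_muC`).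
-/

set_option autoImplicit false

namespace Pool.Agent.Results.MP_663568_nt.PowerCorrelations

open Finset

/-- the integers `0 ≤ n < b ^ m` whose digit at `b ^ j` in base `b` is in `𝒟 j`, for all `j < m` -/
def Digits (b : ℕ) (𝒟 : ℕ → Finset ℕ) (m : ℕ) : Finset ℕ :=
  (range (b ^ m)).filter (fun n => ∀ j < m, n / b ^ j % b ∈ 𝒟 j)

/-- the generalised polynomial with the exponents `x ∈ F` and the coefficients `u x` -/
noncomputable def f (F : Finset ℝ) (u : ℝ → ℝ) (t : ℝ) : ℝ := ∑ x ∈ F, u x * t ^ x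

/-- `M` is a subset with at least `#(Digits b 𝒟 m) / log ^ D N` elements of the set `Digits b 𝒟 m`, where all sets `𝒟 j`
of allowed digits have at least two elements; the number `θ` is at most `log ^ D N` and at least
`N / (b ^ (c m) log ^ D N)` in absolute value, and `|b₀ + θ f(n)| ≤ N` for all `n ∈ M`. -/
def Fam (b : ℕ) (F : Finset ℝ) (u : ℝ → ℝ) (c : ℝ) (D N m : ℕ) (𝒟 : ℕ → Finset ℕ) (θ b₀ : ℝ) (M : Finset ℕ) : Prop :=
  (∀ j, 𝒟 j ⊆ range b ∧ 2 ≤ (𝒟 j).card) ∧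
  |θ| ≤ Real.log N ^ D ∧ (N : ℝ) / Real.log N ^ D ≤ |θ| * ((b : ℝ) ^ m) ^ c ∧
  M ⊆ Digits b 𝒟 m ∧ ((Digits b 𝒟 m).card : ℝ) / Real.log N ^ D ≤ M.card ∧ ∀ n ∈ M, |b₀ + θ * f F u n| ≤ N

/-- The Möbius function on the integers, `0` at the integers `m ≤ 0`. -/
noncomputable def mu (m : ℤ) : ℝ := if 1 ≤ m then (ArithmeticFunction.moebius m.toNat : ℝ) else 0

/-- The sum of `w t * ∏_{i ∈ I} μ(a i * t + s i) * ∏_{i ∈ K} μ²(a i * t + s i)` over the `1 ≤ t ≤ x`. -/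
noncomputable def corr {k : ℕ} (a : Fin k → ℕ) (s : Fin k → ℤ) (I K : Finset (Fin k)) (w : ℕ → ℝ) (x : ℕ) : ℝ :=
  ∑ t ∈ Icc 1 x, w t * ((∏ i ∈ I, mu (a i * t + s i)) * ∏ i ∈ K, mu (a i * t + s i) ^ 2)

lemma mu_abs (m : ℤ) : |mu m| ≤ 1 := by
  unfold mu
  split_ifs
  · exact_mod_cast ArithmeticFunction.abs_moebius_le_one
  · simp

lemma mu_cube (m : ℤ) : mu m * mu m ^ 2 = mu m := by
  unfold mu
  split_ifs
  · rcases ArithmeticFunction.moebius_eq_or m.toNat with h | h | h <;> rw [h] <;> norm_num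
  · simp

lemma mu_eq (m : ℤ) : Pool.Agent.H373R2.T7.exI Pool.Agent.H373R2.T7.muC m = ((mu m : ℝ) : ℂ) := by
  unfold mu Pool.Agent.H373R2.T7.exI Pool.Agent.H373R2.T7.muC
  split_ifs <;> simp

lemma muC_bd (n : ℕ) : ‖Pool.Agent.H373R2.T7.muC n‖ ≤ 1 := by
  unfold Pool.Agent.H373R2.T7.muC
  rw [Complex.norm_intCast]
  exact_mod_cast ArithmeticFunction.abs_moebius_le_one

/-- the summand with one entry distinguished -/
lemma summand {r : ℕ} (i₀ : Fin r) (g : Fin r → ℤ) (I K : Finset (Fin r)) (hI : i₀ ∈ I) :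
    (∏ i ∈ I, mu (g i)) * ∏ i ∈ K, mu (g i) ^ 2 =
      ((∏ i ∈ I.erase i₀, mu (g i)) * ∏ i ∈ K.erase i₀, mu (g i) ^ 2) * mu (g i₀) := by
  rw [← mul_prod_erase I _ hI]
  by_cases h2 : i₀ ∈ K
  · rw [← mul_prod_erase K _ h2]
    have := mu_cube (g i₀)
    linear_combination (∏ i ∈ I.erase i₀, mu (g i)) * (∏ i ∈ K.erase i₀, mu (g i) ^ 2) * this
  · rw [erase_eq_of_notMem h2]
    ring

lemma abs_part {r : ℕ} (g : Fin r → ℤ) (I K : Finset (Fin r)) :
    |(∏ i ∈ I, mu (g i)) * ∏ i ∈ K, mu (g i) ^ 2| ≤ 1 := by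
  rw [abs_mul, abs_prod, abs_prod]
  refine mul_le_one₀ (prod_le_one (fun _ _ => abs_nonneg _) fun i _ => mu_abs _)
    (prod_nonneg fun _ _ => abs_nonneg _) (prod_le_one (fun _ _ => abs_nonneg _) fun i _ => ?_)
  rw [abs_pow]
  exact pow_le_one₀ (abs_nonneg _) (mu_abs _)

lemma dat_of {b : ℕ} {F : Finset ℝ} {u : ℝ → ℝ} {c : ℝ} {D N m : ℕ} {𝒟 : ℕ → Finset ℕ} {θ b₀ : ℝ} {M : Finset ℕ}
    (h : Fam b F u c D N m 𝒟 θ b₀ M) :
    Pool.Agent.X31.CT.Dat3 b c D N m 𝒟 θ b₀ (fun n => Pool.Agent.X31.gp F u n) M :=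
  ⟨h.1, h.2.1, h.2.2.1, h.2.2.2.1, h.2.2.2.2.1, h.2.2.2.2.2⟩

/-- Let `b i ≥ 2` be integers and let `F i` be finite sets of real numbers whose maxima `c i > 0` are NOT
integers, `u i (c i) ≠ 0` (`i < k`). Let `B`, `D`, `T`, `U` be natural numbers. For all sufficiently large `N`, all numbers `m i` of digits, ALL sets `𝒟 i j` of
allowed digits, all real `θ i`, `b₀ i` and all sets `M i` with
`Fam (b i) (F i) (u i) (c i) D N (m i) (𝒟 i) (θ i) (b₀ i) (M i)`,
and for all weights `w j`, `j < J ≤ log ^ T N`, with `|w j| ≤ 1`: for all but at most `(∏ #(M i)) / log ^ U N` of the vectors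
`n` with `n i ∈ M i`, ALL vectors `s` of integers with `|s i - (b₀ i + θ i * f (F i) (u i) (n i))| ≤ log ^ D N`, ALL slopes
`1 ≤ a i ≤ log ^ T N`, all sets `I ≠ ∅` and all sets `K` of indices satisfy
`|∑ t ≤ x, w j t * ∏ i ∈ I, μ (a i * t + s i) * ∏ i ∈ K, μ² (a i * t + s i)| ≤ N / log ^ U N` for all `j` and all `x`
with `a i * x ≤ B N` for all `i`. -/
theorem result {k : ℕ} (b : Fin k → ℕ) (hb : ∀ i, 2 ≤ b i) (F : Fin k → Finset ℝ) (u : Fin k → ℝ → ℝ)
    (c : Fin k → ℝ) (hF : ∀ i, c i ∈ F i ∧ (∀ x ∈ F i, x ≤ c i) ∧ u i (c i) ≠ 0 ∧ 0 < c i ∧ ∀ j : ℕ, c i ≠ j) (B D T U : ℕ) :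
    ∃ N₀ : ℕ, ∀ N : ℕ, N₀ ≤ N → ∀ (m : Fin k → ℕ) (𝒟 : Fin k → ℕ → Finset ℕ) (θ b₀ : Fin k → ℝ) (M : Fin k → Finset ℕ),
        (∀ i, Fam (b i) (F i) (u i) (c i) D N (m i) (𝒟 i) (θ i) (b₀ i) (M i)) →
      ∀ J : ℕ, (J : ℝ) ≤ Real.log N ^ T → ∀ w : Fin J → ℕ → ℝ, (∀ j t, |w j t| ≤ 1) →
      ∃ E : Finset (Fin k → ℕ), (E.card : ℝ) ≤ (∏ i, ((M i).card : ℝ)) / Real.log N ^ U ∧
        ∀ n : Fin k → ℕ, (∀ i, n i ∈ M i) → n ∉ E →
        ∀ s : Fin k → ℤ, (∀ i, |(s i : ℝ) - (b₀ i + θ i * f (F i) (u i) (n i))| ≤ Real.log N ^ D) →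
        ∀ a : Fin k → ℕ, (∀ i, 1 ≤ a i ∧ (a i : ℝ) ≤ Real.log N ^ T) → ∀ I K : Finset (Fin k), I.Nonempty →
        ∀ j, ∀ x : ℕ, (∀ i, a i * x ≤ B * N) → |corr a s I K (w j) x| ≤ N / Real.log N ^ U := by
  classical
  choose N₁ h0 using fun i₀ : Fin k => Pool.Agent.X31.Sch.corr_tuple (ι := fun _ => ℕ) (Q := fun i => Pool.Agent.X31.PRp (b i) (F i) (u i) (c i))
    (fun i => Pool.Agent.X31.Sch_rp (hb i) (F i) (u i) (c i) (hF i).1 (hF i).2.1 (hF i).2.2.1 (hF i).2.2.2.1 (hF i).2.2.2.2)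
    Pool.Agent.H373R2.T7.muC muC_bd Pool.Agent.H373R2.T7.sup_muC i₀ 0 B D (T * k + (T + 1)) (U + 1)
  have hlog : ∀ᶠ N : ℕ in Filter.atTop, (4 : ℝ) ^ k + k + 1 ≤ Real.log N :=
    (Real.tendsto_log_atTop.comp tendsto_natCast_atTop_atTop).eventually_ge_atTop _
  obtain ⟨N₂, hN₂⟩ := Filter.eventually_atTop.1 hlog
  refine ⟨(∑ i, N₁ i) + N₂ + 3, fun N hN m 𝒟 θ b₀ M hfam J hJ w hw => ?_⟩
  have hL := hN₂ N (by omega)
  have h4k : (1 : ℝ) ≤ 4 ^ k := one_le_pow₀ (by norm_num)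
  have hk0 : (0 : ℝ) ≤ k := Nat.cast_nonneg k
  have hlog1 : 1 ≤ Real.log N := by linarith
  have hN1 : ∀ i, N₁ i ≤ N := by
    intro i
    have := single_le_sum (f := N₁) (fun _ _ => Nat.zero_le _) (mem_univ i)
    omega
  obtain ⟨Q, hQ⟩ : ∃ Q : ℕ, Q = ⌊Real.log N ^ T⌋₊ := ⟨_, rfl⟩
  have hQ1 : (Q : ℝ) ≤ Real.log N ^ T := by rw [hQ]; exact Nat.floor_le (by positivity)
  obtain ⟨S, hS⟩ : ∃ S : Finset (Fin k → ℕ), S = Fintype.piFinset (fun _ => Icc 1 Q) := ⟨_, rfl⟩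
  have hSc : S.card = Q ^ k := by
    rw [hS, Fintype.card_piFinset, prod_const, card_univ, Fintype.card_fin, Nat.card_Icc, Nat.add_sub_cancel]
  have hSm : ∀ q : {a // a ∈ S}, ∀ i, 1 ≤ q.1 i := by
    intro q i
    have h1 := q.2
    have h2 : q.1 ∈ Fintype.piFinset (fun _ : Fin k => Icc 1 Q) := hS ▸ h1
    exact (mem_Icc.1 (Fintype.mem_piFinset.1 h2 i)).1
  have hcard : Fintype.card ({a // a ∈ S} × (Fin J × (Finset (Fin k) × Finset (Fin k)))) = S.card * (J * (2 ^ k * 2 ^ k)) := by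
    rw [Fintype.card_prod, Fintype.card_prod, Fintype.card_prod, Fintype.card_coe, Fintype.card_fin,
      Fintype.card_finset, Fintype.card_fin]
  obtain ⟨e⟩ : Nonempty (Fin (S.card * (J * (2 ^ k * 2 ^ k))) ≃ ({a // a ∈ S} × (Fin J × (Finset (Fin k) × Finset (Fin k))))) :=
    ⟨(Fintype.equivFinOfCardEq hcard).symm⟩
  have hJ' : ((S.card * (J * (2 ^ k * 2 ^ k)) : ℕ) : ℝ) ≤ Real.log N ^ (T * k + (T + 1)) := by
    rw [hSc]
    push_cast
    rw [pow_add, pow_mul, pow_succ (Real.log N) T]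
    have e4 : (2 : ℝ) ^ k * 2 ^ k = 4 ^ k := by rw [← mul_pow]; norm_num
    rw [e4]
    have : (4 : ℝ) ^ k ≤ Real.log N := by linarith
    gcongr
  choose E hE1 hE2 using fun i₀ : Fin k => h0 i₀ N (hN1 i₀) M (fun i n => (b₀ i + θ i * f (F i) (u i) n)) (fun i => ⟨m i, 𝒟 i, θ i, b₀ i, dat_of (hfam i), fun _ => rfl⟩)
    (S.card * (J * (2 ^ k * 2 ^ k))) hJ' (fun l => (e l).1.1 i₀) (fun l => hSm (e l).1 i₀)
    (fun l s t => ((w (e l).2.1 t * ((∏ i ∈ (e l).2.2.1.erase i₀, mu ((e l).1.1 i * t + s i)) *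
      ∏ i ∈ (e l).2.2.2.erase i₀, mu ((e l).1.1 i * t + s i) ^ 2) : ℝ) : ℂ)) (fun l s t => by
      rw [Complex.norm_real, Real.norm_eq_abs, abs_mul]
      exact mul_le_one₀ (hw _ _) (abs_nonneg _) (abs_part _ _ _))
    (fun l s s' t hs => by
      have e1 : ∏ i ∈ (e l).2.2.1.erase i₀, mu ((e l).1.1 i * t + s i) =
          ∏ i ∈ (e l).2.2.1.erase i₀, mu ((e l).1.1 i * t + s' i) :=
        prod_congr rfl fun i hi => by rw [hs i (mem_erase.1 hi).1]
      have e2 : ∏ i ∈ (e l).2.2.2.erase i₀, mu ((e l).1.1 i * t + s i) ^ 2 =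
          ∏ i ∈ (e l).2.2.2.erase i₀, mu ((e l).1.1 i * t + s' i) ^ 2 :=
        prod_congr rfl fun i hi => by rw [hs i (mem_erase.1 hi).1]
      rw [e1, e2])
  refine ⟨univ.biUnion E, ?_, fun n hn hnE s hs a ha I K hI j x hx => ?_⟩
  · have hP : (0 : ℝ) ≤ ∏ i, ((M i).card : ℝ) := prod_nonneg fun _ _ => Nat.cast_nonneg _
    calc ((univ.biUnion E).card : ℝ) ≤ ∑ i, ((E i).card : ℝ) := by exact_mod_cast card_biUnion_le
      _ ≤ ∑ _i : Fin k, (∏ i, ((M i).card : ℝ)) / Real.log N ^ (U + 1) := sum_le_sum fun i _ => hE1 i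
      _ = k * ((∏ i, ((M i).card : ℝ)) / Real.log N ^ (U + 1)) := by
          rw [sum_const, card_univ, Fintype.card_fin, nsmul_eq_mul]
      _ ≤ (Real.log N) * ((∏ i, ((M i).card : ℝ)) / Real.log N ^ (U + 1)) := by
          apply mul_le_mul_of_nonneg_right (by linarith) (by positivity)
      _ = _ := by
          rw [pow_succ]
          field_simp
  · obtain ⟨i₀, hi₀⟩ := hI
    have hnE' : n ∉ E i₀ := fun h => hnE (mem_biUnion.2 ⟨i₀, mem_univ _, h⟩)
    have haS : a ∈ S := by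
      rw [hS, Fintype.mem_piFinset]
      intro i
      rw [mem_Icc]
      refine ⟨(ha i).1, ?_⟩
      rw [hQ]
      exact Nat.le_floor (ha i).2
    have h1 := hE2 i₀ n hn hnE' s (fun i => hs i) (e.symm (⟨a, haS⟩, j, I, K)) x (by simpa using hx i₀)
    have h2 : (N : ℝ) / Real.log N ^ (U + 1) ≤ N / Real.log N ^ U := by
      apply div_le_div_of_nonneg_left (Nat.cast_nonneg _) (by positivity)
      exact pow_le_pow_right₀ hlog1 (by omega)
    refine le_trans ?_ (h1.trans h2)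
    rw [← Real.norm_eq_abs, ← Complex.norm_real]
    refine le_of_eq ?_
    congr 1
    unfold corr
    push_cast
    apply sum_congr rfl
    intro t _
    rw [mu_eq, Equiv.apply_symm_apply]
    have h3 := summand i₀ (fun i => (a i : ℤ) * t + s i) I K hi₀
    have h4 := congrArg (fun z : ℝ => ((w j t * z : ℝ) : ℂ)) h3
    push_cast at h4
    rw [h4]
    push_cast
    ring

end Pool.Agent.Results.MP_663568_nt.PowerCorrelations
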