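import Pool.Agent.X20.Tr.Pat
import Pool.Agent.Results.MP_663568_nt.SmallFrequencySets

/-!
# Windows of the Moebius function at `⌊α n ^ c⌋`

The joint distribution of the values of the Moebius function in the windows of length up to `κ log N` after the
points `⌊α n ^ c⌋`, and short-interval Moebius disjointness for rotations of tori, with the supremum over the rotations
inside the sum, for the windows which start at these points.
From Mathlib: `ArithmeticFunction.moebius`: the Moebius function; `dimH E`: the Hausdorff dimension; `⌊x⌋₊`: the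
integer part; `Finset.Icc 1 N` and `Finset.Ioc 0 N`: the integers from `1` to `N`; `UnitAddCircle`: `ℝ/ℤ`.
-/

set_option autoImplicit false

namespace Pool.Agent.Results.MP_663568_nt.WindowsAlongDilatedPowers

open Finset
open Pool.Agent.X20.Tr
open Pool.Agent.Y854.PS (ms xs)

/-- The covering numbers of the subset `E` of the torus `ℝ^d/ℤ^d` are at most `C n ^ s`: for each `n ≥ 1` there
is a set of at most `C n ^ s` points such that each point of `E` is within `1 / n` of one of them (in the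
maximum metric). -/
def Covering {d : ℕ} (E : Set (Fin d → UnitAddCircle)) (C s : ℝ) : Prop :=
  ∀ n : ℕ, 1 ≤ n → ∃ S : Finset (Fin d → UnitAddCircle), (S.card : ℝ) ≤ C * (n : ℝ) ^ s ∧
    ∀ g ∈ E, ∃ y ∈ S, dist g y ≤ 1 / n

/-- The supremum of `|∑_{h ≤ H} f(x + (h + n) g) μ(n + h)|` over all rotations `g` in `E` and all starting
points `x` of the torus. -/
noncomputable def windowSup {d : ℕ} (E : Set (Fin d → UnitAddCircle)) (f : C(Fin d → UnitAddCircle, ℂ))
    (n H : ℕ) : ℝ :=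
  ⨆ p : E × (Fin d → UnitAddCircle), ‖∑ h ∈ Icc 1 H, f (p.2 + (h + n) • (p.1 : Fin d → UnitAddCircle)) *
    ((ArithmeticFunction.moebius (n + h) : ℤ) : ℂ)‖

variable {d : ℕ}

lemma tri : Pat.Tri3 (fun n => ArithmeticFunction.moebius n) := by
  intro n
  show ArithmeticFunction.moebius n = 1 ∨ ArithmeticFunction.moebius n = 0 ∨ ArithmeticFunction.moebius n = -1
  by_cases h : ArithmeticFunction.moebius n = 0
  · exact Or.inr (Or.inl h)
  · rcases ArithmeticFunction.moebius_ne_zero_iff_eq_or.1 h with h | h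
    · exact Or.inl h
    · exact Or.inr (Or.inr h)

/-- the term of the supremum, without the shift of the starting point -/
noncomputable def term (f : C(Fin d → UnitAddCircle, ℂ)) (g x : Fin d → UnitAddCircle) (n H : ℕ) : ℂ :=
  ∑ h ∈ Icc 1 H, f (x + h • g) * ((ArithmeticFunction.moebius (n + h) : ℤ) : ℂ)

lemma windowSup_eq (E : Set (Fin d → UnitAddCircle)) (f : C(Fin d → UnitAddCircle, ℂ)) (n H : ℕ) :
    windowSup E f n H = ⨆ p : E × (Fin d → UnitAddCircle), ‖term f p.1 p.2 n H‖ := by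
  unfold windowSup
  let e : (E × (Fin d → UnitAddCircle)) ≃ (E × (Fin d → UnitAddCircle)) :=
    { toFun := fun p => (p.1, p.2 + n • (p.1 : Fin d → UnitAddCircle))
      invFun := fun p => (p.1, p.2 - n • (p.1 : Fin d → UnitAddCircle))
      left_inv := fun p => by simp
      right_inv := fun p => by simp }
  refine Equiv.iSup_congr e fun p => ?_
  show ‖term f p.1 (p.2 + n • (p.1 : Fin d → UnitAddCircle)) n H‖ = _
  unfold term
  congr 1
  apply sum_congr rfl
  intro h _
  rw [add_smul, add_comm (h • (p.1 : Fin d → UnitAddCircle)), add_assoc]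

lemma term_le (f : C(Fin d → UnitAddCircle, ℂ)) (g x : Fin d → UnitAddCircle) (n H : ℕ) :
    ‖term f g x n H‖ ≤ ‖f‖ * H := by
  unfold term
  refine (norm_sum_le _ _).trans ?_
  calc ∑ h ∈ Icc 1 H, ‖f (x + h • g) * ((ArithmeticFunction.moebius (n + h) : ℤ) : ℂ)‖
      ≤ ∑ h ∈ Icc 1 H, ‖f‖ := by
        apply sum_le_sum
        intro h _
        rw [norm_mul]
        have h1 := f.norm_coe_le_norm (x + h • g)
        have h2 : ‖((ArithmeticFunction.moebius (n + h) : ℤ) : ℂ)‖ ≤ 1 := by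
          rw [Complex.norm_intCast]
          rcases tri (n + h) with e | e | e <;> (simp only at e; rw [e]; norm_num)
        calc ‖f (x + h • g)‖ * ‖((ArithmeticFunction.moebius (n + h) : ℤ) : ℂ)‖ ≤ ‖f‖ * 1 :=
              mul_le_mul h1 h2 (norm_nonneg _) (norm_nonneg _)
          _ = ‖f‖ := mul_one _
    _ = ‖f‖ * H := by
        rw [sum_const, Nat.card_Icc, Nat.add_sub_cancel, nsmul_eq_mul, mul_comm]

lemma bdd (E : Set (Fin d → UnitAddCircle)) (f : C(Fin d → UnitAddCircle, ℂ)) (n H : ℕ) :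
    BddAbove (Set.range fun p : E × (Fin d → UnitAddCircle) => ‖term f p.1 p.2 n H‖) :=
  ⟨‖f‖ * H, by
    rintro _ ⟨p, rfl⟩
    exact term_le f _ _ n H⟩

lemma W_nonneg (E : Set (Fin d → UnitAddCircle)) (f : C(Fin d → UnitAddCircle, ℂ)) (n H : ℕ) :
    0 ≤ windowSup E f n H := by
  rw [windowSup_eq]
  exact Real.iSup_nonneg fun _ => norm_nonneg _

lemma W_le (E : Set (Fin d → UnitAddCircle)) (f : C(Fin d → UnitAddCircle, ℂ)) (n H : ℕ) :
    windowSup E f n H ≤ ‖f‖ * H := by
  rw [windowSup_eq]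
  exact Real.iSup_le (fun p => term_le f _ _ n H) (by positivity)

lemma W_pat (E : Set (Fin d → UnitAddCircle)) (f : C(Fin d → UnitAddCircle, ℂ)) (m m' H : ℕ)
    (h : ∀ i < H, ArithmeticFunction.moebius (m + i + 1) = ArithmeticFunction.moebius (m' + i + 1)) :
    windowSup E f m H = windowSup E f m' H := by
  rw [windowSup_eq, windowSup_eq]
  congr 1
  funext p
  unfold term
  congr 1
  apply sum_congr rfl
  intro k hk
  rw [mem_Icc] at hk
  have := h (k - 1) (by omega)
  rw [show m + (k - 1) + 1 = m + k by omega, show m' + (k - 1) + 1 = m' + k by omega] at this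
  rw [this]

lemma W_sub (E : Set (Fin d → UnitAddCircle)) (f : C(Fin d → UnitAddCircle, ℂ)) (n H H' : ℕ) :
    windowSup E f n (H + H') ≤ windowSup E f n H + windowSup E f (n + H) H' := by
  rw [windowSup_eq E f n (H + H')]
  refine Real.iSup_le (fun p => ?_) (add_nonneg (W_nonneg E f _ _) (W_nonneg E f _ _))
  have e : term f p.1 p.2 n (H + H') = term f p.1 p.2 n H +
      term f p.1 (p.2 + H • (p.1 : Fin d → UnitAddCircle)) (n + H) H' := by
    unfold term
    have e1 : Icc 1 (H + H') = Ioc 0 (H + H') := rfl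
    have e2 : Icc 1 H = Ioc 0 H := rfl
    rw [e1, e2, ← Finset.sum_Ioc_consecutive _ (Nat.zero_le H) (Nat.le_add_right H H')]
    congr 1
    have e3 : Ioc H (H + H') = (Icc 1 H').image (fun k => H + k) := by
      ext x
      rw [mem_Ioc, mem_image]
      constructor
      · intro hx
        exact ⟨x - H, by rw [mem_Icc]; omega, by omega⟩
      · rintro ⟨k, hk, rfl⟩
        rw [mem_Icc] at hk
        omega
    rw [e3, sum_image (fun a _ b _ hab => Nat.add_left_cancel hab)]
    apply sum_congr rfl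
    intro k _
    rw [add_smul, add_assoc, add_assoc]
  rw [e]
  refine (norm_add_le _ _).trans (add_le_add ?_ ?_)
  · rw [windowSup_eq]
    exact le_ciSup (bdd E f n H) p
  · rw [windowSup_eq]
    exact le_ciSup (bdd E f (n + H) H') (p.1, p.2 + H • (p.1 : Fin d → UnitAddCircle))

/-- For every real `c > 1` there are `κ > 0` and a set `A` of real numbers of Hausdorff dimension at most `1 - κ`
such that for every real `α > 0` outside `A`:

* for all large `N`, all `L` with `3 ^ L ≤ N ^ κ` and every function `Φ` with values in `[-1, 1]` the sum of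
  `Φ (μ(a + 1), ..., μ(a + L))` over the points `a = ⌊α n ^ c⌋`, `n ≤ N`, is, up to `N ^ (1 - κ)`, equal to the sum of
  `Φ (μ(m + 1), ..., μ(m + L))` over all `m ≤ α N ^ c` with the weights `(1 / c) α ^ (-1 / c) m ^ (1 / c - 1)` (the
  density of the sequence at `m`);
* for every `d`, every continuous `f` on the torus `ℝ^d/ℤ^d`, every `C`, `s < 1/2` and `ε > 0` there are `H₀` and `N₀`
  such that for all `N ≥ N₀`, all `H₀ ≤ H ≤ N ^ κ` and ALL sets `E` of rotations with covering numbers at most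
  `C n ^ s` the sum over `n ≤ N` of the suprema `windowSup E f ⌊α n ^ c⌋ H` is at most `ε H N`. -/
theorem result (c : ℝ) (hc : 1 < c) : ∃ κ : ℝ, 0 < κ ∧ κ < 1 ∧ ∃ A : Set ℝ, dimH A ≤ ENNReal.ofReal (1 - κ) ∧
    ∀ α : ℝ, 0 < α → α ∉ A →
      (∃ N₀ : ℕ, ∀ N : ℕ, N₀ ≤ N → ∀ L : ℕ, (3 : ℝ) ^ L ≤ (N : ℝ) ^ κ → ∀ Φ : (Fin L → ℤ) → ℝ, (∀ w, |Φ w| ≤ 1) →
        |∑ n ∈ Icc 1 N, Φ (fun i => ArithmeticFunction.moebius (⌊α * (n : ℝ) ^ c⌋₊ + i + 1)) -
          ∑ m ∈ Ioc 0 ⌊α * (N : ℝ) ^ c⌋₊, Φ (fun i => ArithmeticFunction.moebius (m + i + 1)) *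
            (1 / c * α ^ (-(1 / c)) * (m : ℝ) ^ (1 / c - 1))| ≤ (N : ℝ) ^ (1 - κ)) ∧
      (∀ (d : ℕ) (f : C(Fin d → UnitAddCircle, ℂ)) (C s : ℝ), s < 1 / 2 → ∀ ε : ℝ, 0 < ε →
        ∃ H₀ N₀ : ℕ, ∀ N : ℕ, N₀ ≤ N → ∀ H : ℕ, H₀ ≤ H → (H : ℝ) ≤ (N : ℝ) ^ κ →
          ∀ E : Set (Fin d → UnitAddCircle), Covering E C s →
            ∑ n ∈ Icc 1 N, windowSup E f ⌊α * (n : ℝ) ^ c⌋₊ H ≤ ε * H * N) := by
  obtain ⟨κ, hκ0, hκ8, A, hA, h⟩ := Pat.tv tri c hc
  refine ⟨κ, hκ0, by linarith, A, hA, fun α hα hαA => ⟨?_, ?_⟩⟩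
  · obtain ⟨N₀, h1⟩ := h α hα hαA
    refine ⟨max N₀ 1, fun N hN L hL Φ hΦ => ?_⟩
    obtain ⟨_, h2⟩ := h1 N ((le_max_left _ _).trans hN)
    have hN1 : (1 : ℝ) ≤ N := by exact_mod_cast (le_max_right _ _).trans hN
    have hN0 : (0 : ℝ) < N := by linarith
    obtain ⟨φ, hφ1, hφ2⟩ := Pat.of_pattern tri L
      (fun m => Φ (fun i => ArithmeticFunction.moebius (m + i + 1))) 1 zero_le_one (fun n => hΦ _)
      (fun m m' hm => by
        show Φ (fun i => ArithmeticFunction.moebius (m + i + 1)) = Φ (fun i => ArithmeticFunction.moebius (m' + i + 1))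
        congr 1
        funext i
        exact hm i i.2)
    have h3 := h2 L 0 hL (by rw [Nat.cast_zero]; positivity) 1 φ hφ1
    simp only [Nat.add_zero, ← hφ2] at h3
    refine h3.trans ?_
    rw [one_mul]
    calc (3 : ℝ) ^ L * (N : ℝ) ^ (1 - 8 * κ) ≤ (N : ℝ) ^ κ * (N : ℝ) ^ (1 - 8 * κ) :=
          mul_le_mul_of_nonneg_right hL (by positivity)
      _ = (N : ℝ) ^ (κ + (1 - 8 * κ)) := by rw [Real.rpow_add hN0]
      _ ≤ (N : ℝ) ^ (1 - κ) := Real.rpow_le_rpow_of_exponent_le hN1 (by linarith)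
  · intro d f C s hs ε hε
    have key := Pat.means tri hc hα hκ0 hκ8 (h α hα hαA) ‖f‖ (norm_nonneg _)
      {E : Set (Fin d → UnitAddCircle) // Covering E C s} (fun v n H => windowSup v.1 f n H)
      (fun v n H => W_nonneg v.1 f n H) (fun v n H => W_le v.1 f n H)
      (fun v m m' H hm => W_pat v.1 f m m' H hm) (fun v n H H' => W_sub v.1 f n H H')
      (fun ε' hε' => by
        obtain ⟨H₀, h1⟩ := Pool.Agent.Results.MP_663568_nt.SmallFrequencySets.result d f C s hs ε' hε'
        exact ⟨H₀, fun N H hH hHN v => (h1 N H hH hHN v.1 v.2).2⟩) ε hε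
    obtain ⟨H₀, N₀, h2⟩ := key
    exact ⟨H₀, N₀, fun N hN H hH hHN E hE => h2 N hN H hH hHN ⟨E, hE⟩⟩

end Pool.Agent.Results.MP_663568_nt.WindowsAlongDilatedPowers
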